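import Pool.Agent.Helper66.E7.Defs

/-!
# Block C of project 7E (MP_a499ba_nt): the Mellin factor does not vanish for large `T`
-/

set_option autoImplicit false

open Complex Filter Topology MeasureTheory Set

namespace Pool.Agent.E7

/-- the truncated Gamma integral -/
noncomputable def cI (ρ r : ℂ) : ℂ := ∫ y in Ioc (0:ℝ) 1, (y : ℂ) ^ (ρ - 1) * cexp (-(r * y))

theorem c_norm {ρ r : ℂ} {y : ℝ} (hy : 0 < y) :
    ‖(y : ℂ) ^ (ρ - 1) * cexp (-(r * y))‖ = y ^ (ρ.re - 1) * Real.exp (-(r.re * y)) := by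
  rw [norm_mul, Complex.norm_cpow_eq_rpow_re_of_pos hy, Complex.norm_exp]
  simp

theorem c_cont {ρ r : ℂ} : ContinuousOn (fun y : ℝ => (y : ℂ) ^ (ρ - 1) * cexp (-(r * y))) (Ioi 0) := by
  intro y hy
  refine ContinuousAt.continuousWithinAt ?_
  refine ContinuousAt.mul ?_ ?_
  · refine (continuousAt_cpow_const ?_).comp Complex.continuous_ofReal.continuousAt
    exact Complex.ofReal_mem_slitPlane.2 hy
  · fun_prop

theorem c_int01 {ρ r : ℂ} (h0 : 0 < ρ.re) (hr : 0 ≤ r.re) :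
    IntegrableOn (fun y : ℝ => (y : ℂ) ^ (ρ - 1) * cexp (-(r * y))) (Ioc 0 1) := by
  have h1 : IntegrableOn (fun y : ℝ => y ^ (ρ.re - 1)) (Ioc 0 1) := by
    rw [← intervalIntegrable_iff_integrableOn_Ioc_of_le zero_le_one]
    exact intervalIntegral.intervalIntegrable_rpow' (by linarith)
  refine h1.mono' ?_ ?_
  · exact (c_cont.mono fun y hy => hy.1).aestronglyMeasurable measurableSet_Ioc
  · refine (ae_restrict_iff' measurableSet_Ioc).2 (Eventually.of_forall fun y hy => ?_)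
    rw [c_norm hy.1]
    have : Real.exp (-(r.re * y)) ≤ 1 := Real.exp_le_one_iff.2 (by
      have := mul_nonneg hr hy.1.le
      linarith)
    calc y ^ (ρ.re - 1) * Real.exp (-(r.re * y)) ≤ y ^ (ρ.re - 1) * 1 :=
          mul_le_mul_of_nonneg_left this (Real.rpow_nonneg hy.1.le _)
      _ = y ^ (ρ.re - 1) := mul_one _

theorem c_int1 {ρ r : ℂ} (h1 : ρ.re < 1) (hr : 0 < r.re) :
    IntegrableOn (fun y : ℝ => (y : ℂ) ^ (ρ - 1) * cexp (-(r * y))) (Ioi 1) := by
  have hs : Ioi (1:ℝ) ⊆ Ioi 0 := Ioi_subset_Ioi zero_le_one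
  refine (exp_neg_integrableOn_Ioi 1 hr).mono' ?_ ?_
  · exact (c_cont.mono hs).aestronglyMeasurable measurableSet_Ioi
  · refine (ae_restrict_iff' measurableSet_Ioi).2 (Eventually.of_forall fun y hy => ?_)
    have hy0 : (0:ℝ) < y := lt_trans zero_lt_one hy
    rw [c_norm hy0]
    have : y ^ (ρ.re - 1) ≤ 1 := Real.rpow_le_one_of_one_le_of_nonpos (le_of_lt hy) (by linarith)
    calc y ^ (ρ.re - 1) * Real.exp (-(r.re * y)) ≤ 1 * Real.exp (-(r.re * y)) :=
          mul_le_mul_of_nonneg_right this (Real.exp_pos _).le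
      _ = Real.exp (-r.re * y) := by rw [one_mul, neg_mul]

theorem c_int2 {ρ r : ℂ} (h1 : ρ.re < 1) (hr : 0 < r.re) :
    IntegrableOn (fun y : ℝ => (y : ℂ) ^ (ρ - 1 - 1) * cexp (-(r * y))) (Ioi 1) ∧
    ‖∫ y in Ioi (1:ℝ), (y : ℂ) ^ (ρ - 1 - 1) * cexp (-(r * y))‖ ≤ 1 / (1 - ρ.re) := by
  have hI : IntegrableOn (fun y : ℝ => y ^ (ρ.re - 2)) (Ioi 1) :=
    integrableOn_Ioi_rpow_of_lt (by linarith) zero_lt_one
  have hb : ∀ y ∈ Ioi (1:ℝ), ‖(y : ℂ) ^ (ρ - 1 - 1) * cexp (-(r * y))‖ ≤ y ^ (ρ.re - 2) := by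
    intro y hy
    have hy0 : (0:ℝ) < y := lt_trans zero_lt_one hy
    rw [c_norm hy0]
    have : Real.exp (-(r.re * y)) ≤ 1 := Real.exp_le_one_iff.2 (by
      have := mul_nonneg hr.le hy0.le
      linarith)
    calc y ^ ((ρ - 1).re - 1) * Real.exp (-(r.re * y)) ≤ y ^ ((ρ - 1).re - 1) * 1 :=
          mul_le_mul_of_nonneg_left this (Real.rpow_nonneg hy0.le _)
      _ = y ^ (ρ.re - 2) := by
          rw [mul_one]
          congr 1
          simp
          ring
  have hs : Ioi (1:ℝ) ⊆ Ioi 0 := Ioi_subset_Ioi zero_le_one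
  have hm : AEStronglyMeasurable (fun y : ℝ => (y : ℂ) ^ (ρ - 1 - 1) * cexp (-(r * y)))
      (volume.restrict (Ioi 1)) :=
    (c_cont.mono hs).aestronglyMeasurable measurableSet_Ioi
  refine ⟨hI.mono' hm ((ae_restrict_iff' measurableSet_Ioi).2 (Eventually.of_forall hb)), ?_⟩
  refine (norm_integral_le_of_norm_le hI ((ae_restrict_iff' measurableSet_Ioi).2
    (Eventually.of_forall hb))).trans ?_
  rw [integral_Ioi_rpow_of_lt (by linarith) zero_lt_one, Real.one_rpow]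
  have h2 : (1:ℝ) - ρ.re ≠ 0 := by linarith
  have h3 : ρ.re - 2 + 1 ≠ 0 := by linarith
  have : -1 / (ρ.re - 2 + 1) = 1 / (1 - ρ.re) := by
    field_simp
    ring
  rw [this]

/-- the tail -/
theorem c_tail {ρ r : ℂ} (h1 : ρ.re < 1) (hr : 0 < r.re) :
    ‖∫ y in Ioi (1:ℝ), (y : ℂ) ^ (ρ - 1) * cexp (-(r * y))‖ ≤ (1 + ‖ρ - 1‖ / (1 - ρ.re)) / ‖r‖ := by
  have hr0 : r ≠ 0 := by
    rintro rfl
    simp at hr
  have hn : 0 < ‖r‖ := norm_pos_iff.2 hr0
  obtain ⟨i2, b2⟩ := c_int2 h1 hr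
  have i1 := c_int1 (ρ := ρ) h1 hr
  have hd : ∀ y ∈ Ioi (1:ℝ), HasDerivAt (fun y : ℝ => -((y : ℂ) ^ (ρ - 1) * cexp (-(r * y))) / r)
      ((y : ℂ) ^ (ρ - 1) * cexp (-(r * y)) -
        (ρ - 1) / r * ((y : ℂ) ^ (ρ - 1 - 1) * cexp (-(r * y)))) y := by
    intro y hy
    have hy0 : (0:ℝ) < y := lt_trans zero_lt_one hy
    have a1 : HasDerivAt (fun z : ℂ => z ^ (ρ - 1)) ((ρ - 1) * (y : ℂ) ^ (ρ - 1 - 1)) (y : ℂ) := by
      have := (hasDerivAt_id (y : ℂ)).cpow_const (c := ρ - 1) (Complex.ofReal_mem_slitPlane.2 hy0)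
      simpa using this
    have a2 : HasDerivAt (fun z : ℂ => cexp (-(r * z))) (cexp (-(r * y)) * (-(r * 1))) (y : ℂ) :=
      (((hasDerivAt_id (y : ℂ)).const_mul r).neg).cexp
    have a3 : HasDerivAt (fun z : ℂ => -(z ^ (ρ - 1) * cexp (-(r * z))) / r)
        (-((ρ - 1) * (y : ℂ) ^ (ρ - 1 - 1) * cexp (-(r * y)) +
          (y : ℂ) ^ (ρ - 1) * (cexp (-(r * y)) * (-(r * 1)))) / r) (y : ℂ) :=
      (a1.mul a2).neg.div_const r
    refine a3.comp_ofReal.congr_deriv ?_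
    field_simp
    ring
  have hcont : ContinuousWithinAt (fun y : ℝ => -((y : ℂ) ^ (ρ - 1) * cexp (-(r * y))) / r) (Ici 1) 1 := by
    refine ContinuousAt.continuousWithinAt ?_
    have := (c_cont (ρ := ρ) (r := r)).continuousAt (Ioi_mem_nhds zero_lt_one)
    exact this.neg.div_const r
  have hlim : Tendsto (fun y : ℝ => -((y : ℂ) ^ (ρ - 1) * cexp (-(r * y))) / r) atTop (𝓝 0) := by
    rw [tendsto_zero_iff_norm_tendsto_zero]
    have e : Tendsto (fun y : ℝ => Real.exp (-(r.re * y)) / ‖r‖) atTop (𝓝 0) := by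
      rw [← zero_div ‖r‖]
      refine Tendsto.div_const ?_ _
      refine Real.tendsto_exp_atBot.comp ?_
      exact tendsto_neg_atTop_atBot.comp (tendsto_id.const_mul_atTop hr)
    refine squeeze_zero' (Eventually.of_forall fun y => norm_nonneg _) ?_ e
    filter_upwards [eventually_ge_atTop (1:ℝ)] with y hy
    have hy0 : (0:ℝ) < y := lt_of_lt_of_le zero_lt_one hy
    rw [norm_div, norm_neg, c_norm hy0]
    refine div_le_div_of_nonneg_right ?_ hn.le
    have : y ^ (ρ.re - 1) ≤ 1 := Real.rpow_le_one_of_one_le_of_nonpos hy (by linarith)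
    calc y ^ (ρ.re - 1) * Real.exp (-(r.re * y)) ≤ 1 * Real.exp (-(r.re * y)) :=
          mul_le_mul_of_nonneg_right this (Real.exp_pos _).le
      _ = Real.exp (-(r.re * y)) := one_mul _
  have key := integral_Ioi_of_hasDerivAt_of_tendsto hcont hd (i1.sub (i2.const_mul _)) hlim
  rw [integral_sub i1 (i2.const_mul _), integral_const_mul] at key
  have e1 : ∫ y in Ioi (1:ℝ), (y : ℂ) ^ (ρ - 1) * cexp (-(r * y)) =
      cexp (-r) / r + (ρ - 1) / r * ∫ y in Ioi (1:ℝ), (y : ℂ) ^ (ρ - 1 - 1) * cexp (-(r * y)) := by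
    have : ∫ y in Ioi (1:ℝ), (y : ℂ) ^ (ρ - 1) * cexp (-(r * y)) =
      0 - -(((1:ℝ) : ℂ) ^ (ρ - 1) * cexp (-(r * (1:ℝ)))) / r +
      (ρ - 1) / r * ∫ y in Ioi (1:ℝ), (y : ℂ) ^ (ρ - 1 - 1) * cexp (-(r * y)) := by
      rw [← key]
      ring
    rw [this]
    simp
    ring
  rw [e1]
  refine (norm_add_le _ _).trans ?_
  rw [norm_div, norm_mul, norm_div, add_div]
  refine add_le_add ?_ ?_
  · refine div_le_div_of_nonneg_right ?_ hn.le
    rw [Complex.norm_exp]
    exact Real.exp_le_one_iff.2 (by simp; exact hr.le)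
  · calc ‖ρ - 1‖ / ‖r‖ * ‖∫ y in Ioi (1:ℝ), (y : ℂ) ^ (ρ - 1 - 1) * cexp (-(r * y))‖
        ≤ ‖ρ - 1‖ / ‖r‖ * (1 / (1 - ρ.re)) := mul_le_mul_of_nonneg_left b2 (by positivity)
      _ = ‖ρ - 1‖ / (1 - ρ.re) / ‖r‖ := by ring

theorem c_intG {ρ r : ℂ} (h0 : 0 < ρ.re) (hr : 0 < r.re) :
    IntegrableOn (fun y : ℝ => (y : ℂ) ^ (ρ - 1) * cexp (-(r * y))) (Ioi 0) := by
  have h := integrableOn_rpow_mul_exp_neg_mul_rpow (p := 1) (s := ρ.re - 1) (b := r.re) (by linarith) zero_lt_one hr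
  refine h.mono' (c_cont.aestronglyMeasurable measurableSet_Ioi) ?_
  refine (ae_restrict_iff' measurableSet_Ioi).2 (Eventually.of_forall fun y hy => ?_)
  rw [c_norm hy, Real.rpow_one, neg_mul]

theorem c_diff {ρ : ℂ} (h0 : 0 < ρ.re) : DifferentiableOn ℂ
    (fun r : ℂ => ∫ t in Ioi (0:ℝ), (t : ℂ) ^ (ρ - 1) * cexp (-(r * t))) {r : ℂ | 0 < r.re} := by
  intro r hr
  have hr' : 0 < r.re := hr
  have hcl : ∀ z ∈ Metric.ball r (r.re / 2), r.re / 2 < z.re := by
    intro z hz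
    rw [Metric.mem_ball, dist_eq_norm] at hz
    have h1 := (Complex.abs_re_le_norm (z - r)).trans_lt hz
    rw [Complex.sub_re] at h1
    have := (abs_lt.1 h1).1
    linarith
  have hd := hasDerivAt_integral_of_dominated_loc_of_deriv_le (μ := volume.restrict (Ioi (0:ℝ)))
    (F := fun (r : ℂ) (t : ℝ) => (t : ℂ) ^ (ρ - 1) * cexp (-(r * t)))
    (F' := fun (r : ℂ) (t : ℝ) => (t : ℂ) ^ (ρ - 1) * (cexp (-(r * t)) * (-(1 * (t : ℂ)))))
    (x₀ := r) (bound := fun t : ℝ => t ^ ρ.re * Real.exp (-(r.re / 2) * t ^ (1:ℝ)))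
    (s := Metric.ball r (r.re / 2)) (Metric.ball_mem_nhds r (by linarith))
    (Eventually.of_forall fun z => c_cont.aestronglyMeasurable measurableSet_Ioi)
    (c_intG h0 hr') ?_ ?_ ?_ ?_
  · exact hd.2.differentiableAt.differentiableWithinAt
  · have hc : ContinuousOn (fun t : ℝ => (t : ℂ) ^ (ρ - 1) * (cexp (-(r * t)) * (-(1 * (t : ℂ))))) (Ioi 0) := by
      have h2 : ContinuousOn (fun t : ℝ => -(1 * (t : ℂ))) (Ioi 0) := by fun_prop
      refine ((c_cont (ρ := ρ) (r := r)).mul h2).congr ?_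
      intro t ht
      simp only [Pi.mul_apply]
      ring
    exact hc.aestronglyMeasurable measurableSet_Ioi
  · refine (ae_restrict_iff' measurableSet_Ioi).2 (Eventually.of_forall fun t ht z hz => ?_)
    have ht0 : (0:ℝ) < t := ht
    have e1 : (t : ℂ) ^ (ρ - 1) * (cexp (-(z * t)) * (-(1 * (t : ℂ)))) =
      ((t : ℂ) ^ (ρ - 1) * cexp (-(z * t))) * (-(t : ℂ)) := by ring
    rw [e1, norm_mul, c_norm ht0, norm_neg, Complex.norm_real, Real.norm_of_nonneg ht0.le]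
    have e2 : t ^ (ρ.re - 1) * t = t ^ ρ.re := by
      rw [Real.rpow_sub_one ht0.ne']
      field_simp
    calc t ^ (ρ.re - 1) * Real.exp (-(z.re * t)) * t = (t ^ (ρ.re - 1) * t) * Real.exp (-(z.re * t)) := by ring
      _ = t ^ ρ.re * Real.exp (-(z.re * t)) := by rw [e2]
      _ ≤ t ^ ρ.re * Real.exp (-(r.re / 2) * t ^ (1:ℝ)) := by
          refine mul_le_mul_of_nonneg_left ?_ (Real.rpow_nonneg ht0.le _)
          refine Real.exp_le_exp.2 ?_
          rw [Real.rpow_one]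
          have := mul_le_mul_of_nonneg_right (hcl z hz).le ht0.le
          linarith
  · exact integrableOn_rpow_mul_exp_neg_mul_rpow (p := 1) (by linarith) zero_lt_one (by linarith)
  · refine Eventually.of_forall fun t z hz => ?_
    have a2 : HasDerivAt (fun z : ℂ => cexp (-(z * t))) (cexp (-(z * t)) * (-(1 * (t : ℂ)))) z :=
      (((hasDerivAt_id z).mul_const (t : ℂ)).neg).cexp
    exact a2.const_mul _

theorem c_gamma {ρ r : ℂ} (h0 : 0 < ρ.re) (hr : 0 < r.re) :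
    ∫ t in Ioi (0:ℝ), (t : ℂ) ^ (ρ - 1) * cexp (-(r * t)) = (1 / r) ^ ρ * Complex.Gamma ρ := by
  have ho : IsOpen {r : ℂ | 0 < r.re} := isOpen_lt continuous_const Complex.continuous_re
  have hc : IsPreconnected {r : ℂ | 0 < r.re} := (convex_halfSpace_re_gt 0).isPreconnected
  have hf := (c_diff h0).analyticOnNhd ho
  have hg : AnalyticOnNhd ℂ (fun r : ℂ => (1 / r) ^ ρ * Complex.Gamma ρ) {r : ℂ | 0 < r.re} := by
    refine DifferentiableOn.analyticOnNhd ?_ ho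
    intro z hz
    have hz' : 0 < z.re := hz
    have hz0 : z ≠ 0 := by
      rintro rfl
      simp at hz'
    refine DifferentiableAt.differentiableWithinAt ?_
    refine DifferentiableAt.mul_const ?_ _
    refine DifferentiableAt.cpow_const ?_ ?_
    · exact (differentiableAt_const _).div differentiableAt_id hz0
    · rw [mem_slitPlane_iff]
      left
      rw [one_div, Complex.inv_re]
      exact div_pos hz' (Complex.normSq_pos.2 hz0)
  refine hf.eqOn_of_preconnected_of_frequently_eq hg hc (z₀ := 1) (by simp) ?_ hr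
  have ht : Tendsto (fun x : ℝ => (x : ℂ)) (𝓝[≠] 1) (𝓝[≠] (1 : ℂ)) := by
    refine tendsto_nhdsWithin_iff.2 ⟨?_, ?_⟩
    · have := (Complex.continuous_ofReal.tendsto 1).mono_left (nhdsWithin_le_nhds (s := {1}ᶜ))
      simpa using this
    · filter_upwards [self_mem_nhdsWithin] with x hx
      intro h
      apply hx
      have h2 : (x : ℂ) = 1 := h
      exact_mod_cast h2
  refine ht.frequently ?_
  refine Eventually.frequently ?_
  have hp : ∀ᶠ x : ℝ in 𝓝[≠] 1, 0 < x := (lt_mem_nhds zero_lt_one).filter_mono nhdsWithin_le_nhds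
  filter_upwards [hp] with x hx
  have := Complex.integral_cpow_mul_exp_neg_mul_Ioi h0 hx
  rw [← this]

theorem c_pos {ρ r : ℂ} (h0 : 0 < ρ.re) (h1 : ρ.re < 1) (hr : 0 < r.re) :
    ‖cI ρ r - (1 / r) ^ ρ * Complex.Gamma ρ‖ ≤ (1 + ‖ρ - 1‖ / (1 - ρ.re)) / ‖r‖ := by
  have e := c_gamma h0 hr
  have hu : Ioi (0:ℝ) = Ioc 0 1 ∪ Ioi 1 := (Ioc_union_Ioi_eq_Ioi zero_le_one).symm
  rw [hu, setIntegral_union Ioc_disjoint_Ioi_same measurableSet_Ioi (c_int01 h0 hr.le)
    (c_int1 h1 hr)] at e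
  rw [← e]
  unfold cI
  rw [sub_add_cancel_left, norm_neg]
  exact c_tail h1 hr

theorem c_lim {ρ : ℂ} (h0 : 0 < ρ.re) (s : ℝ) :
    Tendsto (fun δ : ℝ => cI ρ (δ + s * I)) (𝓝[>] 0) (𝓝 (cI ρ (s * I))) := by
  unfold cI
  have h1 : IntegrableOn (fun y : ℝ => y ^ (ρ.re - 1)) (Ioc 0 1) := by
    rw [← intervalIntegrable_iff_integrableOn_Ioc_of_le zero_le_one]
    exact intervalIntegral.intervalIntegrable_rpow' (by linarith)
  refine tendsto_integral_filter_of_dominated_convergence (fun y : ℝ => y ^ (ρ.re - 1)) ?_ ?_ h1 ?_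
  · filter_upwards [self_mem_nhdsWithin] with δ hδ
    exact (c_int01 h0 (by simp; exact le_of_lt hδ)).aestronglyMeasurable
  · filter_upwards [self_mem_nhdsWithin] with δ hδ
    refine (ae_restrict_iff' measurableSet_Ioc).2 (Eventually.of_forall fun y hy => ?_)
    rw [c_norm hy.1]
    have hre : ((δ : ℂ) + s * I).re = δ := by simp
    rw [hre]
    have : Real.exp (-(δ * y)) ≤ 1 := Real.exp_le_one_iff.2 (by
      have := mul_nonneg (le_of_lt hδ) hy.1.le
      linarith)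
    calc y ^ (ρ.re - 1) * Real.exp (-(δ * y)) ≤ y ^ (ρ.re - 1) * 1 :=
          mul_le_mul_of_nonneg_left this (Real.rpow_nonneg hy.1.le _)
      _ = y ^ (ρ.re - 1) := mul_one _
  · refine Eventually.of_forall fun y => ?_
    have hc : Continuous fun δ : ℝ => (y : ℂ) ^ (ρ - 1) * cexp (-(((δ : ℂ) + s * I) * y)) := by fun_prop
    have := (hc.tendsto 0).mono_left (nhdsWithin_le_nhds (s := Ioi (0:ℝ)))
    simpa using this

theorem c_edge {ρ : ℂ} (h0 : 0 < ρ.re) (h1 : ρ.re < 1) {s : ℝ} (hs : s ≠ 0) :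
    ‖cI ρ (s * I) - (1 / (s * I)) ^ ρ * Complex.Gamma ρ‖ ≤ (1 + ‖ρ - 1‖ / (1 - ρ.re)) / |s| := by
  have hsl : (1 : ℂ) / (s * I) ∈ slitPlane := by
    rw [mem_slitPlane_iff]
    right
    have : (1 : ℂ) / (s * I) = -(1 / s : ℝ) * I := by
      have hs' : (s : ℂ) ≠ 0 := by exact_mod_cast hs
      rw [div_eq_iff (mul_ne_zero hs' I_ne_zero)]
      push_cast
      have e3 : -(1 / (s:ℂ)) * I * (s * I) = -(1 / (s:ℂ) * s) * (I * I) := by ring
      rw [e3, I_mul_I, one_div_mul_cancel hs']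
      norm_num
    rw [this]
    simp
    exact hs
  have hr : Tendsto (fun δ : ℝ => (δ : ℂ) + s * I) (𝓝[>] 0) (𝓝 (s * I)) := by
    have hc : Continuous fun δ : ℝ => (δ : ℂ) + s * I := by fun_prop
    have := (hc.tendsto 0).mono_left (nhdsWithin_le_nhds (s := Ioi (0:ℝ)))
    simpa using this
  have hne : (s : ℂ) * I ≠ 0 := by
    refine mul_ne_zero (by exact_mod_cast hs) I_ne_zero
  have t1 : Tendsto (fun δ : ℝ => ‖cI ρ (δ + s * I) - (1 / ((δ : ℂ) + s * I)) ^ ρ * Complex.Gamma ρ‖)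
      (𝓝[>] 0) (𝓝 ‖cI ρ (s * I) - (1 / (s * I)) ^ ρ * Complex.Gamma ρ‖) := by
    refine ((c_lim h0 s).sub ?_).norm
    refine Tendsto.mul_const _ ?_
    have h3 : ContinuousAt (fun z : ℂ => z ^ ρ) (1 / (s * I)) := continuousAt_cpow_const hsl
    refine h3.tendsto.comp ?_
    exact tendsto_const_nhds.div hr hne
  have t2 : Tendsto (fun δ : ℝ => (1 + ‖ρ - 1‖ / (1 - ρ.re)) / ‖(δ : ℂ) + s * I‖)
      (𝓝[>] 0) (𝓝 ((1 + ‖ρ - 1‖ / (1 - ρ.re)) / |s|)) := by
    have : ‖(s : ℂ) * I‖ = |s| := by simp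
    rw [← this]
    exact tendsto_const_nhds.div hr.norm (norm_ne_zero_iff.2 hne)
  refine le_of_tendsto_of_tendsto t1 t2 ?_
  filter_upwards [self_mem_nhdsWithin] with δ hδ
  exact c_pos h0 h1 (by simp; exact hδ)

theorem c_n1 {ρ : ℂ} {s : ℝ} (hs : 0 < s) :
    ‖((1 : ℂ) / (s * I)) ^ ρ‖ = (1 / s) ^ ρ.re * Real.exp (Real.pi / 2 * ρ.im) := by
  have hs' : (s : ℂ) ≠ 0 := by exact_mod_cast hs.ne'
  have e : (1 : ℂ) / (s * I) = ((1 / s : ℝ) : ℂ) * (-I) := by
    rw [div_eq_iff (mul_ne_zero hs' I_ne_zero)]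
    push_cast
    have e3 : (1 / (s:ℂ)) * (-I) * (s * I) = -(1 / (s:ℂ) * s) * (I * I) := by ring
    rw [e3, I_mul_I, one_div_mul_cancel hs']
    norm_num
  have hne : (1 : ℂ) / (s * I) ≠ 0 := one_div_ne_zero (mul_ne_zero hs' I_ne_zero)
  rw [Complex.norm_cpow_of_ne_zero hne, e, Complex.arg_real_mul _ (by positivity), Complex.arg_neg_I]
  rw [norm_mul, norm_neg, Complex.norm_I, mul_one, Complex.norm_real, Real.norm_of_nonneg (by positivity)]
  rw [div_eq_mul_inv, ← Real.exp_neg]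
  congr 2
  ring

theorem c_n2 {ρ : ℂ} {s : ℝ} (hs : 0 < s) :
    ‖((1 : ℂ) / (((-s : ℝ) : ℂ) * I)) ^ ρ‖ = (1 / s) ^ ρ.re * Real.exp (-(Real.pi / 2 * ρ.im)) := by
  have hs' : (s : ℂ) ≠ 0 := by exact_mod_cast hs.ne'
  have hs'' : ((-s : ℝ) : ℂ) ≠ 0 := by exact_mod_cast (neg_ne_zero.2 hs.ne')
  have e : (1 : ℂ) / (((-s : ℝ) : ℂ) * I) = ((1 / s : ℝ) : ℂ) * I := by
    rw [div_eq_iff (mul_ne_zero hs'' I_ne_zero)]
    push_cast
    have e3 : (1 / (s:ℂ)) * I * (-s * I) = -(1 / (s:ℂ) * s) * (I * I) := by ring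
    rw [e3, I_mul_I, one_div_mul_cancel hs']
    norm_num
  have hne : (1 : ℂ) / (((-s : ℝ) : ℂ) * I) ≠ 0 := one_div_ne_zero (mul_ne_zero hs'' I_ne_zero)
  rw [Complex.norm_cpow_of_ne_zero hne, e, Complex.arg_real_mul _ (by positivity), Complex.arg_I]
  rw [norm_mul, Complex.norm_I, mul_one, Complex.norm_real, Real.norm_of_nonneg (by positivity)]
  rw [div_eq_mul_inv, ← Real.exp_neg]

theorem c_sep {ρ : ℂ} (h0 : 0 < ρ.re) (h1 : ρ.re < 1) (ht : ρ.im ≠ 0) :
    ∃ S : ℝ, 0 < S ∧ ∀ s : ℝ, S ≤ s → ‖cI ρ (s * I)‖ ≠ ‖cI ρ (((-s : ℝ) : ℂ) * I)‖ := by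
  set G : ℝ := ‖Complex.Gamma ρ‖ with hG
  have hGp : 0 < G := norm_pos_iff.2 (Complex.Gamma_ne_zero_of_re_pos h0)
  set C : ℝ := 1 + ‖ρ - 1‖ / (1 - ρ.re) with hC
  set a : ℝ := Real.exp (Real.pi / 2 * ρ.im) with ha
  set b : ℝ := Real.exp (-(Real.pi / 2 * ρ.im)) with hb
  have hab : a ≠ b := by
    intro h
    have := Real.exp_injective h
    have hp := Real.pi_pos
    have h3 : Real.pi * ρ.im = 0 := by linarith
    rcases mul_eq_zero.1 h3 with h4 | h4
    · exact hp.ne' h4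
    · exact ht h4
  have hD : 0 < |a - b| := abs_pos.2 (sub_ne_zero.2 hab)
  have hlim : Tendsto (fun s : ℝ => s ^ (1 - ρ.re)) atTop atTop := tendsto_rpow_atTop (by linarith)
  obtain ⟨S, hS⟩ := ((hlim.eventually_gt_atTop (2 * C / (|a - b| * G))).and (eventually_gt_atTop (0:ℝ))).exists_forall_of_atTop
  refine ⟨S, (hS S le_rfl).2, fun s hs heq => ?_⟩
  obtain ⟨k1, k2⟩ := hS s hs
  have hs0 : 0 < s := k2
  have q1 := c_edge h0 h1 hs0.ne'
  have q2 := c_edge h0 h1 (neg_ne_zero.2 hs0.ne')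
  have r1 := (abs_norm_sub_norm_le _ _).trans q1
  have r2 := (abs_norm_sub_norm_le _ _).trans q2
  rw [norm_mul, c_n1 hs0, ← hC, ← ha, ← hG, abs_of_pos hs0] at r1
  rw [norm_mul, c_n2 hs0, ← hC, ← hb, ← hG, abs_neg, abs_of_pos hs0, ← heq] at r2
  set N : ℝ := ‖cI ρ (s * I)‖ with hN
  have hp : 0 < (1 / s) ^ ρ.re := Real.rpow_pos_of_pos (by positivity) _
  have r3 : |(1 / s) ^ ρ.re * a * G - (1 / s) ^ ρ.re * b * G| ≤ 2 * C / s := by
    have e1 : (1 / s) ^ ρ.re * a * G - (1 / s) ^ ρ.re * b * G =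
      (N - (1 / s) ^ ρ.re * b * G) - (N - (1 / s) ^ ρ.re * a * G) := by ring
    rw [e1]
    refine (abs_sub _ _).trans ?_
    have : 2 * C / s = C / s + C / s := by ring
    rw [this]
    exact add_le_add r2 r1
  have r4 : (1 / s) ^ ρ.re * (|a - b| * G) ≤ 2 * C / s := by
    have e1 : (1 / s) ^ ρ.re * a * G - (1 / s) ^ ρ.re * b * G = (1 / s) ^ ρ.re * G * (a - b) := by ring
    rw [e1, abs_mul, abs_of_pos (mul_pos hp hGp)] at r3
    calc (1 / s) ^ ρ.re * (|a - b| * G) = (1 / s) ^ ρ.re * G * |a - b| := by ring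
      _ ≤ _ := r3
  have e2 : (1 / s) ^ ρ.re * s = s ^ (1 - ρ.re) := by
    rw [one_div, Real.inv_rpow hs0.le, Real.rpow_sub hs0, Real.rpow_one]
    ring
  rw [le_div_iff₀ hs0] at r4
  have r5 : s ^ (1 - ρ.re) * (|a - b| * G) ≤ 2 * C := by
    rw [← e2]
    calc (1 / s) ^ ρ.re * s * (|a - b| * G) = (1 / s) ^ ρ.re * (|a - b| * G) * s := by ring
      _ ≤ _ := r4
  rw [div_lt_iff₀ (mul_pos hD hGp)] at k1
  linarith

/-- the change of variables -/
theorem c_cv {ρ : ℂ} (h0 : 0 < ρ.re) (T f : ℝ) :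
    ∫ v in Ioi (0:ℝ), (Real.cos (2 * Real.pi * T * Real.exp (-v) + f) : ℂ) * cexp (-(ρ * v)) =
    1 / 2 * (cexp (f * I) * cI ρ (((-(2 * Real.pi * T) : ℝ) : ℂ) * I) +
      cexp (-(f * I)) * cI ρ (((2 * Real.pi * T : ℝ) : ℂ) * I)) := by
  have himg : (fun v : ℝ => Real.exp (-v)) '' Ioi 0 = Ioo 0 1 := by
    ext y
    constructor
    · rintro ⟨v, hv, rfl⟩
      refine ⟨Real.exp_pos _, ?_⟩
      have h3 : (0:ℝ) < v := hv
      have h4 : Real.exp (-v) < Real.exp 0 := Real.exp_lt_exp.2 (by linarith)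
      rwa [Real.exp_zero] at h4
    · rintro ⟨hy0, hy1⟩
      refine ⟨-Real.log y, ?_, ?_⟩
      · have := Real.log_neg hy0 hy1
        show (0:ℝ) < -Real.log y
        linarith
      · simp only [neg_neg]
        exact Real.exp_log hy0
  have hinj : InjOn (fun v : ℝ => Real.exp (-v)) (Ioi 0) := by
    intro x _ y _ h
    have := Real.exp_injective h
    linarith
  have hder : ∀ v ∈ Ioi (0:ℝ), HasDerivWithinAt (fun v : ℝ => Real.exp (-v)) (-Real.exp (-v)) (Ioi 0) v := by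
    intro v _
    have := ((hasDerivAt_id v).neg).exp
    refine HasDerivAt.hasDerivWithinAt ?_
    refine this.congr_deriv ?_
    simp
  have hcv := integral_image_eq_integral_abs_deriv_smul measurableSet_Ioi hder hinj
    (fun y : ℝ => (Real.cos (2 * Real.pi * T * y + f) : ℂ) * (y : ℂ) ^ (ρ - 1))
  rw [himg, ← integral_Ioc_eq_integral_Ioo] at hcv
  have e1 : ∫ v in Ioi (0:ℝ), (Real.cos (2 * Real.pi * T * Real.exp (-v) + f) : ℂ) * cexp (-(ρ * v)) =
      ∫ y in Ioc (0:ℝ) 1, (Real.cos (2 * Real.pi * T * y + f) : ℂ) * (y : ℂ) ^ (ρ - 1) := by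
    rw [hcv]
    refine setIntegral_congr_fun measurableSet_Ioi fun v hv => ?_
    have hne : ((Real.exp (-v) : ℝ) : ℂ) ≠ 0 := by exact_mod_cast (Real.exp_pos _).ne'
    have hl : Complex.log ((Real.exp (-v) : ℝ) : ℂ) = ((-v : ℝ) : ℂ) := by
      rw [← Complex.ofReal_log (Real.exp_pos _).le, Real.log_exp]
    simp only [abs_neg, abs_of_pos (Real.exp_pos (-v)), Complex.real_smul]
    rw [Complex.cpow_def_of_ne_zero hne, hl]
    have e2 : cexp (-(ρ * v)) = ((Real.exp (-v) : ℝ) : ℂ) * cexp (((-v : ℝ) : ℂ) * (ρ - 1)) := by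
      rw [Complex.ofReal_exp, ← Complex.exp_add]
      congr 1
      push_cast
      ring
    rw [e2]
    ring
  rw [e1]
  unfold cI
  have hz : ∀ s : ℝ, 0 ≤ ((s : ℂ) * I).re := by
    intro s
    simp
  rw [← integral_const_mul, ← integral_const_mul, ← integral_add ((c_int01 h0 (hz _)).const_mul _)
    ((c_int01 h0 (hz _)).const_mul _), ← integral_const_mul]
  refine setIntegral_congr_fun measurableSet_Ioc fun y hy => ?_
  have e3 : ((Real.cos (2 * Real.pi * T * y + f) : ℝ) : ℂ) =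
    1 / 2 * (cexp (f * I) * cexp (-(((-(2 * Real.pi * T) : ℝ) : ℂ) * I * y)) +
      cexp (-(f * I)) * cexp (-(((2 * Real.pi * T : ℝ) : ℂ) * I * y))) := by
    rw [Complex.ofReal_cos, Complex.cos, ← Complex.exp_add, ← Complex.exp_add]
    rw [div_eq_inv_mul, one_div]
    congr 2
    · congr 1
      push_cast
      ring
    · congr 1
      push_cast
      ring
  show (Real.cos (2 * Real.pi * T * y + f) : ℂ) * (y : ℂ) ^ (ρ - 1) = _
  rw [e3]
  ring

/-- integration by parts -/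
theorem c_ibp {w : ℂ} (hw : -(1 / 2) < w.re) (T f : ℝ) :
    WT T f w = (w + 1 / 2) * ∫ v in Ioi (0:ℝ),
      (Real.cos (2 * Real.pi * T * Real.exp (-v) + f) : ℂ) * cexp (-((w + 1 / 2) * v)) := by
  set ρ : ℂ := w + 1 / 2 with hρ
  have hre : ρ.re = w.re + 1 / 2 := by
    rw [hρ]
    simp
  have h0 : 0 < ρ.re := by
    rw [hre]
    linarith
  have hn1 : ∀ v : ℝ, ‖cexp (-(ρ * v))‖ = Real.exp (-ρ.re * v) := by
    intro v
    rw [Complex.norm_exp]
    simp
  have hn2 : ∀ v : ℝ, ‖cexp (-(w * v))‖ = Real.exp (-(w.re * v)) := by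
    intro v
    rw [Complex.norm_exp]
    simp
  have i1 : IntegrableOn (fun v : ℝ =>
      (Real.cos (2 * Real.pi * T * Real.exp (-v) + f) : ℂ) * cexp (-(ρ * v))) (Ioi 0) := by
    refine (exp_neg_integrableOn_Ioi 0 h0).mono' ?_ ?_
    · have hc : Continuous (fun v : ℝ =>
        (Real.cos (2 * Real.pi * T * Real.exp (-v) + f) : ℂ) * cexp (-(ρ * v))) := by fun_prop
      exact hc.aestronglyMeasurable
    · refine Eventually.of_forall fun v => ?_
      rw [norm_mul, hn1, Complex.norm_real]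
      calc ‖Real.cos (2 * Real.pi * T * Real.exp (-v) + f)‖ * Real.exp (-ρ.re * v) ≤ 1 * Real.exp (-ρ.re * v) :=
            mul_le_mul_of_nonneg_right (Real.abs_cos_le_one _) (Real.exp_pos _).le
        _ = _ := one_mul _
  have i2 : IntegrableOn (fun v : ℝ =>
      ((Real.exp (-(3 / 2 * v)) * Real.sin (2 * Real.pi * T * Real.exp (-v) + f) : ℝ) : ℂ) * cexp (-(w * v)))
      (Ioi 0) := by
    refine (exp_neg_integrableOn_Ioi 0 (show 0 < w.re + 3 / 2 by linarith)).mono' ?_ ?_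
    · have hc : Continuous (fun v : ℝ =>
        ((Real.exp (-(3 / 2 * v)) * Real.sin (2 * Real.pi * T * Real.exp (-v) + f) : ℝ) : ℂ) *
          cexp (-(w * v))) := by fun_prop
      exact hc.aestronglyMeasurable
    · refine Eventually.of_forall fun v => ?_
      rw [norm_mul, hn2, Complex.norm_real, norm_mul, Real.norm_of_nonneg (Real.exp_pos _).le]
      calc Real.exp (-(3 / 2 * v)) * ‖Real.sin (2 * Real.pi * T * Real.exp (-v) + f)‖ * Real.exp (-(w.re * v))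
          ≤ Real.exp (-(3 / 2 * v)) * 1 * Real.exp (-(w.re * v)) := by
            refine mul_le_mul_of_nonneg_right ?_ (Real.exp_pos _).le
            exact mul_le_mul_of_nonneg_left (Real.abs_sin_le_one _) (Real.exp_pos _).le
        _ = Real.exp (-(w.re + 3 / 2) * v) := by
            rw [mul_one, ← Real.exp_add]
            congr 1
            ring
  have hd : ∀ v ∈ Ioi (0:ℝ), HasDerivAt (fun v : ℝ =>
      (Real.cos (2 * Real.pi * T * Real.exp (-v) + f) : ℂ) * cexp (-(ρ * v)))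
      (2 * Real.pi * T * (((Real.exp (-(3 / 2 * v)) * Real.sin (2 * Real.pi * T * Real.exp (-v) + f) : ℝ) : ℂ) *
        cexp (-(w * v))) - ρ * ((Real.cos (2 * Real.pi * T * Real.exp (-v) + f) : ℂ) * cexp (-(ρ * v)))) v := by
    intro v _
    have b0 : HasDerivAt (fun v : ℝ => Real.exp (-v)) (-Real.exp (-v)) v := by
      refine (((hasDerivAt_id v).neg).exp).congr_deriv ?_
      simp
    have b1 : HasDerivAt (fun v : ℝ => Real.cos (2 * Real.pi * T * Real.exp (-v) + f))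
        (-Real.sin (2 * Real.pi * T * Real.exp (-v) + f) * (2 * Real.pi * T * -Real.exp (-v))) v :=
      ((b0.const_mul (2 * Real.pi * T)).add_const f).cos
    have b2 : HasDerivAt (fun v : ℝ => cexp (-(ρ * v))) (cexp (-(ρ * v)) * (-(ρ * 1))) v :=
      ((((hasDerivAt_id (v : ℂ)).const_mul ρ).neg).cexp).comp_ofReal
    refine (b1.ofReal_comp.mul b2).congr_deriv ?_
    have e4 : cexp (-(ρ * v)) * ((Real.exp (-v) : ℝ) : ℂ) = ((Real.exp (-(3 / 2 * v)) : ℝ) : ℂ) * cexp (-(w * v)) := by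
      rw [Complex.ofReal_exp, Complex.ofReal_exp, ← Complex.exp_add, ← Complex.exp_add, hρ]
      congr 1
      push_cast
      ring
    calc _ = 2 * Real.pi * T * (Real.sin (2 * Real.pi * T * Real.exp (-v) + f) : ℂ) *
          (cexp (-(ρ * v)) * ((Real.exp (-v) : ℝ) : ℂ)) -
          ρ * ((Real.cos (2 * Real.pi * T * Real.exp (-v) + f) : ℂ) * cexp (-(ρ * v))) := by
          push_cast
          ring
      _ = _ := by
          rw [e4]
          push_cast
          ring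
  have hcont : ContinuousWithinAt (fun v : ℝ =>
      (Real.cos (2 * Real.pi * T * Real.exp (-v) + f) : ℂ) * cexp (-(ρ * v))) (Ici 0) 0 := by
    have hc : Continuous (fun v : ℝ =>
        (Real.cos (2 * Real.pi * T * Real.exp (-v) + f) : ℂ) * cexp (-(ρ * v))) := by fun_prop
    exact hc.continuousWithinAt
  have hlim : Tendsto (fun v : ℝ =>
      (Real.cos (2 * Real.pi * T * Real.exp (-v) + f) : ℂ) * cexp (-(ρ * v))) atTop (𝓝 0) := by
    rw [tendsto_zero_iff_norm_tendsto_zero]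
    have e : Tendsto (fun v : ℝ => Real.exp (-ρ.re * v)) atTop (𝓝 0) := by
      refine Real.tendsto_exp_atBot.comp ?_
      exact tendsto_id.const_mul_atTop_of_neg (by linarith)
    refine squeeze_zero (fun v => norm_nonneg _) (fun v => ?_) e
    rw [norm_mul, hn1, Complex.norm_real]
    calc ‖Real.cos (2 * Real.pi * T * Real.exp (-v) + f)‖ * Real.exp (-ρ.re * v) ≤ 1 * Real.exp (-ρ.re * v) :=
          mul_le_mul_of_nonneg_right (Real.abs_cos_le_one _) (Real.exp_pos _).le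
      _ = _ := one_mul _
  have key := integral_Ioi_of_hasDerivAt_of_tendsto hcont hd ((i2.const_mul _).sub (i1.const_mul _)) hlim
  rw [integral_sub (i2.const_mul _) (i1.const_mul _), integral_const_mul, integral_const_mul] at key
  have e5 : (Real.cos (2 * Real.pi * T * Real.exp (-0) + f) : ℂ) * cexp (-(ρ * (0:ℝ))) =
      (Real.cos (2 * Real.pi * T + f) : ℂ) := by
    simp
  rw [e5] at key
  unfold WT
  linear_combination key

theorem stmtC : StmtC := by
  intro w hw him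
  obtain ⟨hw1, hw2⟩ := abs_lt.1 hw
  have hre : (w + 1 / 2).re = w.re + 1 / 2 := by simp
  have him' : (w + 1 / 2).im = w.im := by simp
  have h0 : 0 < (w + 1 / 2).re := by
    rw [hre]
    linarith
  have h1 : (w + 1 / 2).re < 1 := by
    rw [hre]
    linarith
  have hne : w + 1 / 2 ≠ 0 := by
    intro h
    rw [h] at h0
    simp at h0
  obtain ⟨S, hS0, hS⟩ := c_sep h0 h1 (by rw [him']; exact him)
  refine ⟨S, fun T hT f hz => ?_⟩
  have hT' : S ≤ 2 * Real.pi * T := by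
    have h2 : (1:ℝ) ≤ 2 * Real.pi := by
      have := Real.pi_gt_three
      linarith
    have h3 : 0 ≤ T := hS0.le.trans hT
    calc S ≤ T := hT
      _ = 1 * T := (one_mul T).symm
      _ ≤ 2 * Real.pi * T := mul_le_mul_of_nonneg_right h2 h3
  refine hS _ hT' ?_
  rw [c_ibp (by linarith) T f, c_cv h0 T f] at hz
  rcases mul_eq_zero.1 hz with h | h
  · exact absurd h hne
  rcases mul_eq_zero.1 h with h | h
  · norm_num at h
  have h4 : cexp (-(f * I)) * cI (w + 1 / 2) (((2 * Real.pi * T : ℝ) : ℂ) * I) =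
      -(cexp (f * I) * cI (w + 1 / 2) (((-(2 * Real.pi * T) : ℝ) : ℂ) * I)) := by
    linear_combination h
  have h5 := congrArg norm h4
  have n1 : ‖cexp (f * I)‖ = 1 := Complex.norm_exp_ofReal_mul_I f
  have n2 : ‖cexp (-(f * I))‖ = 1 := by
    have := Complex.norm_exp_ofReal_mul_I (-f)
    rw [← this]
    congr 2
    push_cast
    ring
  rw [norm_neg, norm_mul, norm_mul, n1, n2, one_mul, one_mul] at h5
  exact h5

end Pool.Agent.E7
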